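import Pool.Agent.H32.CH.Targets

/-! MP_aaa807_co, module CE: the cost after moving a vertex out of A. -/

set_option autoImplicit false

namespace Pool.Agent.H56.CH

open Finset
open scoped Classical
open Pool.Agent.H32.CH

variable {V : Type} [Fintype V]

/-- the degree sum of X after the removal of a vertex -/
theorem sum_dg_erase (G : SimpleGraph V) (X : Finset V) (v : V) (hv : v ∈ X) :
    ∑ u ∈ X, dg G X u = ∑ u ∈ X.erase v, dg G (X.erase v) u + 2 * dg G X v := by
  have h1 : ∀ u ∈ X.erase v, dg G X u = dg G (X.erase v) u + if G.Adj u v then 1 else 0 := by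
    intro u _
    split_ifs with h
    · exact (dg_erase_adj hv h).symm
    · rw [dg_erase_not h, add_zero]
  have h2 : ∑ u ∈ X.erase v, (if G.Adj u v then 1 else 0) = dg G X v := by
    rw [← card_filter, ← dg_erase_self, dg, nb]
    congr 1
    apply filter_congr
    intro u _
    exact G.adj_comm u v
  rw [← add_sum_erase X (fun u => dg G X u) hv, sum_congr rfl h1, sum_add_distrib, h2]
  ring

theorem pf_CE : T_CE := by
  intro V _ G A v hv
  have h1 := sum_dg_erase G A v hv
  have hvc : v ∉ Aᶜ := by simpa using hv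
  have h2 := sum_dg_erase G (insert v Aᶜ) v (mem_insert_self _ _)
  rw [erase_insert hvc, dg_insert_self] at h2
  have h3 : cost G (A.erase v) = ∑ u ∈ A.erase v, dg G (A.erase v) u +
      ∑ u ∈ insert v Aᶜ, dg G (insert v Aᶜ) u := by
    rw [cost, compl_erase']
  have h4 : cost G A = ∑ u ∈ A, dg G A u + ∑ u ∈ Aᶜ, dg G Aᶜ u := rfl
  omega

end Pool.Agent.H56.CH
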