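import Pool.Agent.H32.CH.Targets

/-! MP_aaa807_co, module ENC: enumeration of a cycle starting at a given vertex. -/

set_option autoImplicit false

namespace Pool.Agent.H56.CH

open Finset
open scoped Classical
open Pool.Agent.H32.CH

theorem pf_ENC (h1 : T_EN) : T_ENC := by
  intro V _ G C x hC hdeg hx
  obtain ⟨f, hinj, himg, hcons, hlast⟩ := h1 V G C hC (fun y hy => (hdeg y hy).le)
  obtain ⟨n, hn⟩ : ∃ n, n = C.card := ⟨_, rfl⟩
  rw [← hn] at hinj himg hcons hlast ⊢
  -- at least three vertices
  have hn3 : 3 ≤ n := by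
    obtain ⟨a, b, hab, ha, hb, hxa, hxb, -⟩ := dg_two (hdeg x hx)
    have hsub : ({x, a, b} : Finset V) ⊆ C := by
      intro y hy
      simp only [mem_insert, mem_singleton] at hy
      rcases hy with rfl | rfl | rfl
      · exact hx
      · exact ha
      · exact hb
    have h3 := card_le_card hsub
    rw [card_insert_of_notMem (by simp [G.ne_of_adj hxa, G.ne_of_adj hxb]), card_pair hab] at h3
    omega
  have hmemC : ∀ i, i < n → f i ∈ C := by
    intro i hi
    rw [himg]
    exact mem_image.2 ⟨i, mem_range.2 hi, rfl⟩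
  have hget : ∀ y ∈ C, ∃ i < n, f i = y := by
    intro y hy
    rw [himg] at hy
    obtain ⟨i, hi, hiy⟩ := mem_image.1 hy
    exact ⟨i, mem_range.1 hi, hiy⟩
  -- the closing edge
  have hclose : G.Adj (f 0) (f (n - 1)) := by
    obtain ⟨a, b, hab, ha, hb, hxa, hxb, -⟩ := dg_two (hdeg (f 0) (hmemC 0 (by omega)))
    obtain ⟨j, hj, rfl⟩ := hget a ha
    obtain ⟨k, hk, rfl⟩ := hget b hb
    have hj0 : j ≠ 0 := by
      rintro rfl
      exact G.loopless.irrefl _ hxa
    have hk0 : k ≠ 0 := by
      rintro rfl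
      exact G.loopless.irrefl _ hxb
    have hjk : j ≠ k := by
      rintro rfl
      exact hab rfl
    have h5 := hlast 0 j (by omega) hj hxa
    have h6 := hlast 0 k (by omega) hk hxb
    rcases h5 with h5 | h5
    · rcases h6 with h6 | h6
      · omega
      · rw [← h6.2]; exact hxb
    · rw [← h5.2]; exact hxa
  obtain ⟨a, ha, hax⟩ := hget x hx
  have hmod : ∀ i, i < n → (i + a < n ∧ (i + a) % n = i + a) ∨
      (n ≤ i + a ∧ (i + a) % n = i + a - n) := by
    intro i hi
    rcases lt_or_ge (i + a) n with h | h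
    · exact Or.inl ⟨h, Nat.mod_eq_of_lt h⟩
    · right
      refine ⟨h, ?_⟩
      rw [Nat.mod_eq_sub_mod h]
      exact Nat.mod_eq_of_lt (by omega)
  have hmlt : ∀ i, (i + a) % n < n := fun i => Nat.mod_lt _ (by omega)
  have hginj : ∀ i < n, ∀ j < n, f ((i + a) % n) = f ((j + a) % n) → i = j := by
    intro i hi j hj hij
    have h5 := hinj _ (hmlt i) _ (hmlt j) hij
    rcases hmod i hi with h6 | h6 <;> rcases hmod j hj with h7 | h7 <;> omega
  have hlast' : ∀ p r, p < n → r < n → p ≠ r → G.Adj (f p) (f r) →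
      r = p + 1 ∨ (p = 0 ∧ r = n - 1) ∨ p = r + 1 ∨ (r = 0 ∧ p = n - 1) := by
    intro p r hp hr hne hadj
    rcases lt_or_gt_of_ne hne with h | h
    · rcases hlast p r h hr hadj with h5 | h5
      · exact Or.inl h5
      · exact Or.inr (Or.inl h5)
    · rcases hlast r p h hp hadj.symm with h5 | h5
      · exact Or.inr (Or.inr (Or.inl h5))
      · exact Or.inr (Or.inr (Or.inr h5))
  refine ⟨hn3, fun i => f ((i + a) % n), ⟨hginj, ?_, ?_, ?_⟩, ?_, ?_⟩
  · -- image
    symm
    apply eq_of_subset_of_card_le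
    · intro y hy
      obtain ⟨i, -, rfl⟩ := mem_image.1 hy
      exact hmemC _ (hmlt i)
    · rw [card_image_of_injOn, card_range, hn]
      intro i hi j hj hij
      exact hginj i (mem_range.1 hi) j (mem_range.1 hj) hij
  · intro i hi
    change G.Adj (f ((i + a) % n)) (f ((i + 1 + a) % n))
    rcases hmod i (by omega) with h6 | h6 <;> rcases hmod (i + 1) hi with h7 | h7
    · rw [h6.2, h7.2, show i + 1 + a = i + a + 1 by ring]
      exact hcons _ (by omega)
    · have e1 : i + a = n - 1 := by omega
      have e2 : i + 1 + a - n = 0 := by omega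
      rw [h6.2, h7.2, e1, e2]
      exact hclose.symm
    · omega
    · rw [h6.2, h7.2, show i + 1 + a - n = i + a - n + 1 by omega]
      exact hcons _ (by omega)
  · intro i j hij hj hadj
    change G.Adj (f ((i + a) % n)) (f ((j + a) % n)) at hadj
    have hne : (i + a) % n ≠ (j + a) % n := by
      intro h
      rw [h] at hadj
      exact G.loopless.irrefl _ hadj
    have h5 := hlast' _ _ (hmlt i) (hmlt j) hne hadj
    rcases hmod i (by omega) with h6 | h6 <;> rcases hmod j hj with h7 | h7 <;>
      rw [h6.2, h7.2] at h5 <;> omega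
  · change f ((0 + a) % n) = x
    rw [zero_add, Nat.mod_eq_of_lt ha, hax]
  · change G.Adj (f ((0 + a) % n)) (f ((n - 1 + a) % n))
    rw [zero_add, Nat.mod_eq_of_lt ha]
    rcases hmod (n - 1) (by omega) with h6 | h6
    · have e1 : a = 0 := by omega
      rw [h6.2, e1, add_zero]
      exact hclose
    · rw [h6.2]
      have e1 : a = n - 1 + a - n + 1 := by omega
      have := hcons (n - 1 + a - n) (by omega)
      rw [← e1] at this
      exact this.symm

end Pool.Agent.H56.CH
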