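import Pool.Agent.H32.CH.Targets

/-! MP_aaa807_co, module M2: vertices of same-side degree 2 can be flipped. -/

set_option autoImplicit false

namespace Pool.Agent.H56.CH

open Finset
open scoped Classical
open Pool.Agent.H32.CH

theorem pf_M2 (h1 : T_CE) (h2 : T_CI) : T_M2 := by
  intro V _ G A hG hA
  refine ⟨fun v hv hd => ?_, fun v hv hd => ?_⟩
  · have h3 := h1 V G A v hv
    have h4 := hA (A.erase v)
    have h5 := dg_add_compl G A v
    have h6 := hG v
    have h7 : dg G Aᶜ v = 2 := by omega
    refine ⟨h7, fun A' => ?_⟩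
    have h8 := hA A'
    omega
  · have h3 := h2 V G A v hv
    have h4 := hA (insert v A)
    have h5 := dg_add_compl G A v
    have h6 := hG v
    have h7 : dg G A v = 2 := by omega
    refine ⟨h7, fun A' => ?_⟩
    have h8 := hA A'
    omega

end Pool.Agent.H56.CH
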