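import Pool.Agent.H32.CH.Targets

/-! MP_aaa807_co, module SEQ: one edge at each of finitely many disjoint places. -/

set_option autoImplicit false

namespace Pool.Agent.H56.CH

open Finset
open scoped Classical
open Pool.Agent.H32.CH

variable {V : Type} [Fintype V]

theorem dg_sup_edge_ne (F : SimpleGraph V) (c d v : V) (h1 : v ≠ c) (h2 : v ≠ d) :
    dg (F ⊔ SimpleGraph.edge c d) univ v = dg F univ v := by
  unfold dg nb
  congr 1
  ext y
  simp only [mem_filter, mem_univ, true_and]
  rw [SimpleGraph.sup_adj, SimpleGraph.edge_adj]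
  constructor
  · rintro (h | ⟨⟨h, -⟩ | ⟨h, -⟩, -⟩)
    · exact h
    · exact absurd h h1
    · exact absurd h h2
  · exact Or.inl

theorem dg_sup_edge_le (F : SimpleGraph V) (c d v : V) :
    dg (F ⊔ SimpleGraph.edge c d) univ v ≤ dg F univ v + 1 := by
  rcases eq_or_ne v c with rfl | hc
  · have hsub : nb (F ⊔ SimpleGraph.edge v d) univ v ⊆ insert d (nb F univ v) := by
      intro y hy
      have h1 := (mem_nb.1 hy).2
      rw [SimpleGraph.sup_adj, SimpleGraph.edge_adj] at h1
      rw [mem_insert]
      rcases h1 with h | ⟨⟨-, h⟩ | ⟨h, h'⟩, hne⟩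
      · exact Or.inr (mem_nb.2 ⟨mem_univ _, h⟩)
      · exact Or.inl h
      · exact absurd h'.symm hne
    exact (card_le_card hsub).trans (card_insert_le _ _)
  · rcases eq_or_ne v d with rfl | hd
    · have hsub : nb (F ⊔ SimpleGraph.edge c v) univ v ⊆ insert c (nb F univ v) := by
        intro y hy
        have h1 := (mem_nb.1 hy).2
        rw [SimpleGraph.sup_adj, SimpleGraph.edge_adj] at h1
        rw [mem_insert]
        rcases h1 with h | ⟨⟨h, h'⟩ | ⟨-, h⟩, hne⟩
        · exact Or.inr (mem_nb.2 ⟨mem_univ _, h⟩)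
        · exact absurd h'.symm hne
        · exact Or.inl h
      exact (card_le_card hsub).trans (card_insert_le _ _)
    · rw [dg_sup_edge_ne F c d v hc hd]
      omega

/-- one step: the degrees after adding an edge between two vertices of degree at most 1 -/
theorem deg_step (F : SimpleGraph V) (c d : V) (hF : ∀ v, dg F univ v ≤ 2)
    (hc : dg F univ c ≤ 1) (hd : dg F univ d ≤ 1) (v : V) :
    dg (F ⊔ SimpleGraph.edge c d) univ v ≤ 2 := by
  rcases eq_or_ne v c with rfl | h1
  · have := dg_sup_edge_le F v d v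
    omega
  · rcases eq_or_ne v d with rfl | h2
    · have := dg_sup_edge_le F c v v
      omega
    · rw [dg_sup_edge_ne F c d v h1 h2]
      exact hF v

theorem pf_SEQ (h : T_ADD) : T_SEQ := by
  intro V ι _ _ F g hF hP hg hg1
  have claim : ∀ J : Finset ι, ∃ F' : SimpleGraph V, F ≤ F' ∧ (∀ v, dg F' univ v ≤ 2) ∧ Peel F' ∧
      (∀ i ∈ J, F'.Adj (g (i, 0)) (g (i, 1)) ∨ F'.Adj (g (i, 0)) (g (i, 2))) ∧
      ∀ x : ι × Fin 3, x.1 ∉ J → dg F' univ (g x) ≤ 1 := by
    intro J
    induction J using Finset.induction_on with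
    | empty => exact ⟨F, le_rfl, hF, hP, by simp, fun x _ => hg1 x⟩
    | insert i J hi ih =>
      obtain ⟨F', hFF', hF', hP', hJ, hd⟩ := ih
      have hne : ∀ a b : Fin 3, a ≠ b → g (i, a) ≠ g (i, b) := by
        intro a b hab heq
        exact hab (Prod.mk.inj (hg heq)).2
      have h01 := hne 0 1 (by decide)
      have h02 := hne 0 2 (by decide)
      have h12 := hne 1 2 (by decide)
      have hout : ∀ x : ι × Fin 3, x.1 ∉ insert i J → ∀ a : Fin 3, g x ≠ g (i, a) := by
        intro x hx a heq
        apply hx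
        rw [hg heq]
        exact mem_insert_self _ _
      rcases h V F' (g (i, 0)) (g (i, 1)) (g (i, 2)) hF' hP' h01 h02 h12 (hd (i, 0) hi)
        (hd (i, 1) hi) (hd (i, 2) hi) with hA | hA
      · refine ⟨F' ⊔ SimpleGraph.edge (g (i, 0)) (g (i, 1)), hFF'.trans le_sup_left,
          deg_step F' _ _ hF' (hd (i, 0) hi) (hd (i, 1) hi), hA, ?_, ?_⟩
        · intro j hj
          rcases mem_insert.1 hj with rfl | hj
          · left
            rw [SimpleGraph.sup_adj, SimpleGraph.edge_adj]
            exact Or.inr ⟨Or.inl ⟨rfl, rfl⟩, h01⟩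
          · rcases hJ j hj with h3 | h3
            · exact Or.inl (Or.inl h3)
            · exact Or.inr (Or.inl h3)
        · intro x hx
          rw [dg_sup_edge_ne F' _ _ _ (hout x hx 0) (hout x hx 1)]
          exact hd x fun hxJ => hx (mem_insert_of_mem hxJ)
      · refine ⟨F' ⊔ SimpleGraph.edge (g (i, 0)) (g (i, 2)), hFF'.trans le_sup_left,
          deg_step F' _ _ hF' (hd (i, 0) hi) (hd (i, 2) hi), hA, ?_, ?_⟩
        · intro j hj
          rcases mem_insert.1 hj with rfl | hj
          · right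
            rw [SimpleGraph.sup_adj, SimpleGraph.edge_adj]
            exact Or.inr ⟨Or.inl ⟨rfl, rfl⟩, h02⟩
          · rcases hJ j hj with h3 | h3
            · exact Or.inl (Or.inl h3)
            · exact Or.inr (Or.inl h3)
        · intro x hx
          rw [dg_sup_edge_ne F' _ _ _ (hout x hx 0) (hout x hx 2)]
          exact hd x fun hxJ => hx (mem_insert_of_mem hxJ)
  obtain ⟨F', h1, h2, h3, h4, -⟩ := claim univ
  exact ⟨F', h1, h2, h3, fun i => h4 i (mem_univ i)⟩

end Pool.Agent.H56.CH
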